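import Pool.Agent.H638S.Main
import Pool.Agent.H638S.Lower

/-! Smoothness of S when one of the conditions is the rectangle with r rows of length d - r - 1 at
a real point (normalised to infinity) and the others are one box at each of d - 1 real points. -/

namespace Pool.Agent.Results.MP_0ae92b_ag.HookSmooth

open Module Pool.Agent.H638S

theorem mem_along {K M : Type*} [Field K] [AddCommGroup M] [Module K M] (V F : Submodule K M)
    (φ : V →ₗ[K] (M ⧸ V)) :
    φ ∈ tangentAlong V F ↔ ∀ v : V, (v : M) ∈ F → φ v ∈ F.map V.mkQ := Iff.rfl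

/-- At every complex point V of S the Schubert varieties are smooth (the dimension equalities)
and the Zariski tangent space of their scheme-theoretic intersection is one-dimensional. -/
theorem result (r d : ℕ) (hr : 1 ≤ r) (hrd : r + 1 ≤ d) (x : Fin (d - 1) → ℝ)
    (hx : Function.Injective x) (V : Submodule ℂ (Gam d)) (hV : PointOfS r d x V) :
    meetDim V (vanInf d (d - r)) = r ∧
    (∀ j, meetDim V (vanAt d (x j) (r + 1)) = 1) ∧
    tangentDim V (flagS r d x) = 1 := by
  have hV' : InS r d x V := ⟨hV.dim, hV.atInf, hV.atFin⟩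
  obtain ⟨h, g, -, -, -, -, -, -, -, hfr, -, hfj⟩ := setup r d hr hrd x V hV'
  refine ⟨hfr, hfj, ?_⟩
  have h1 : finrank ℂ ↥(tangentS r d x V) = 1 :=
    le_antisymm (upper r d hr hrd x hx V hV') (lower r d hr hrd x V hV')
  have h2 : (⨅ i, tangentAlong V (flagS r d x i)) = tangentS r d x V := by
    apply le_antisymm
    · intro φ hφ
      rw [Submodule.mem_iInf] at hφ
      have hφ' : ∀ i, ∀ v : V, (v : Gam d) ∈ flagS r d x i →
          φ v ∈ (flagS r d x i).map V.mkQ := hφ
      refine ⟨fun v hv => hφ' none v hv, ?_⟩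
      rw [SetLike.mem_coe, Submodule.mem_iInf]
      exact fun j v hv => hφ' (some j) v hv
    · intro φ hφ
      rw [Submodule.mem_iInf]
      intro i
      cases i with
      | none =>
        have h4 : ∀ v : V, (v : Gam d) ∈ vanInf d (d - r) →
            φ v ∈ (vanInf d (d - r)).map V.mkQ := hφ.1
        exact h4
      | some j =>
        have h3 := hφ.2
        rw [SetLike.mem_coe, Submodule.mem_iInf] at h3
        have h4 : ∀ v : V, (v : Gam d) ∈ vanAt d (x j) (r + 1) →
            φ v ∈ (vanAt d (x j) (r + 1)).map V.mkQ := h3 j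
        exact h4
  rw [tangentDim, commonDim, h2]
  exact h1

end Pool.Agent.Results.MP_0ae92b_ag.HookSmooth
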